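import Pool.Agent.N299.DT.Stm2
import Pool.Agent.W658.ZS.Tower

/-!
Project DT (MP_fb67b4_an): assembly `A ⊗ Z ≅ A`.
-/

set_option autoImplicit false

open scoped BoundedContinuousFunction Topology TensorProduct
open Filter TopologicalSpace

noncomputable section

namespace Pool.Agent.N299.DT

open Pool.Agent.H188R3 (IsMinTensor IsCStarNormed prodMap prodMap_tmul prodMap_injective)
open Pool.Agent.W658.ZS (rng mem_rng left_mem_rng right_mem_rng star_hom_continuous)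

namespace ABSX

/-- constant sequences -/
def cstH (A : Type) [CStarAlgebra A] : A →⋆ₐ[ℂ] (ℕ →ᵇ A) where
  toFun := cst
  map_one' := by ext; rfl
  map_mul' a b := by ext; rfl
  map_zero' := by ext; rfl
  map_add' a b := by ext; rfl
  commutes' c := by ext; rfl
  map_star' a := by ext; rfl

variable {A Q Z : Type} [CStarAlgebra A] [CStarAlgebra Q] [CStarAlgebra Z]

/-- the embedding of `A` in the ultrapower -/
def emb (q : (ℕ →ᵇ A) →⋆ₐ[ℂ] Q) : A →⋆ₐ[ℂ] Q := q.comp (cstH A)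

lemma emb_apply (q : (ℕ →ᵇ A) →⋆ₐ[ℂ] Q) (a : A) : emb q a = q (cst a) := rfl

lemma emb_inj {ω : Ultrafilter ℕ} {q : (ℕ →ᵇ A) →⋆ₐ[ℂ] Q} (h : IsUP A Q ω q) :
    Function.Injective (emb q) := by
  rw [injective_iff_map_eq_zero]
  intro a ha
  rw [emb_apply, h.ker] at ha
  have h1 : Tendsto (fun _ : ℕ => ‖a‖) ω (𝓝 0) := ha
  have h2 : Tendsto (fun _ : ℕ => ‖a‖) ω (𝓝 ‖a‖) := tendsto_const_nhds
  exact norm_eq_zero.1 (tendsto_nhds_unique h2 h1)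

lemma emb_comm {q : (ℕ →ᵇ A) →⋆ₐ[ℂ] Q} {θ : Z →⋆ₐ[ℂ] Q} (hθ : ∀ x, θ x ∈ Cen q) (a : A)
    (z : Z) : emb q a * θ z = θ z * emb q a := by
  have h := hθ z
  unfold Cen at h
  rw [StarSubalgebra.mem_centralizer_iff] at h
  exact (h (q (cst a)) ⟨a, rfl⟩).1

/-- the closed algebra generated by both -/
abbrev BB {q : (ℕ →ᵇ A) →⋆ₐ[ℂ] Q} {θ : Z →⋆ₐ[ℂ] Q} (hθ : ∀ x, θ x ∈ Cen q) :
    StarSubalgebra ℂ Q :=
  (rng (emb q) θ (emb_comm hθ)).topologicalClosure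

/-- the embedding of `A` -/
def io {q : (ℕ →ᵇ A) →⋆ₐ[ℂ] Q} {θ : Z →⋆ₐ[ℂ] Q} (hθ : ∀ x, θ x ∈ Cen q) : A →⋆ₐ[ℂ] BB hθ :=
  (emb q).codRestrict (BB hθ) (fun a => (rng (emb q) θ (emb_comm hθ)).le_topologicalClosure
    (left_mem_rng _ _ _ a))

/-- the embedding of `Z` -/
def ka {q : (ℕ →ᵇ A) →⋆ₐ[ℂ] Q} {θ : Z →⋆ₐ[ℂ] Q} (hθ : ∀ x, θ x ∈ Cen q) : Z →⋆ₐ[ℂ] BB hθ :=
  θ.codRestrict (BB hθ) (fun z => (rng (emb q) θ (emb_comm hθ)).le_topologicalClosure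
    (right_mem_rng _ _ _ z))

lemma prod_coe {q : (ℕ →ᵇ A) →⋆ₐ[ℂ] Q} {θ : Z →⋆ₐ[ℂ] Q} (hθ : ∀ x, θ x ∈ Cen q)
    (t : A ⊗[ℂ] Z) : ((prodMap (io hθ) (ka hθ) t : BB hθ) : Q) = prodMap (emb q) θ t := by
  induction t using TensorProduct.induction_on with
  | zero => simp
  | add u v hu hv => rw [map_add, map_add, ← hu, ← hv]; rfl
  | tmul a z => rfl

lemma io_inj {ω : Ultrafilter ℕ} {q : (ℕ →ᵇ A) →⋆ₐ[ℂ] Q} (h : IsUP A Q ω q) {θ : Z →⋆ₐ[ℂ] Q}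
    (hθ : ∀ x, θ x ∈ Cen q) : Function.Injective (io hθ) := fun _ _ hab =>
  emb_inj h (congrArg Subtype.val hab)

lemma io_comm {q : (ℕ →ᵇ A) →⋆ₐ[ℂ] Q} {θ : Z →⋆ₐ[ℂ] Q} (hθ : ∀ x, θ x ∈ Cen q) (a : A)
    (z : Z) : io hθ a * ka hθ z = ka hθ z * io hθ a := Subtype.ext (emb_comm hθ a z)

lemma dense {q : (ℕ →ᵇ A) →⋆ₐ[ℂ] Q} {θ : Z →⋆ₐ[ℂ] Q} (hθ : ∀ x, θ x ∈ Cen q) :
    DenseRange (prodMap (io hθ) (ka hθ)) := by
  intro b
  rw [closure_subtype]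
  have h1 : (b : Q) ∈ closure ((rng (emb q) θ (emb_comm hθ) : StarSubalgebra ℂ Q) : Set Q) := by
    rw [← StarSubalgebra.topologicalClosure_coe]
    exact b.2
  refine closure_mono ?_ h1
  rintro _ ⟨t, rfl⟩
  exact ⟨prodMap (io hθ) (ka hθ) t, ⟨t, rfl⟩, prod_coe hθ t⟩

lemma sep [SeparableSpace A] [SeparableSpace Z] {q : (ℕ →ᵇ A) →⋆ₐ[ℂ] Q} {θ : Z →⋆ₐ[ℂ] Q}
    (hθ : ∀ x, θ x ∈ Cen q) : SeparableSpace (BB hθ) := by
  set Sx : Set Q := Set.range (fun p : A × Z => emb q p.1 * θ p.2) with hSx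
  have h1 : IsSeparable Sx := by
    apply isSeparable_range
    exact ((star_hom_continuous (emb q)).comp continuous_fst).mul
      ((star_hom_continuous θ).comp continuous_snd)
  have h2 : IsSeparable (Submodule.span ℂ Sx : Set Q) := h1.span
  have h3 : IsSeparable ((rng (emb q) θ (emb_comm hθ) : StarSubalgebra ℂ Q) : Set Q) := by
    refine h2.mono fun x hx => ?_
    obtain ⟨t, rfl⟩ := hx
    induction t using TensorProduct.induction_on with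
    | zero => rw [map_zero]; exact zero_mem _
    | add u v hu hv =>
      rw [map_add]
      exact add_mem hu hv
    | tmul a z =>
      rw [prodMap_tmul]
      exact Submodule.subset_span ⟨(a, z), rfl⟩
  have h4 : IsSeparable (BB hθ : Set Q) := by
    refine h3.closure.mono fun x hx => ?_
    rw [← StarSubalgebra.topologicalClosure_coe]
    exact hx
  exact h4.separableSpace

end ABSX

open ABSX in
theorem t_ABS (hINT : S_INT) (hAPPR : S_APPR) : S_ABS := by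
  intro A Q Z _ _ _ _ _ ω q hUP hω hA hZs hZn hZh θ hθ
  have hi : Function.Injective (io hθ) := io_inj hUP hθ
  have hn : IsCStarNormed (io hθ) (ka hθ) :=
    ⟨io_comm hθ, prodMap_injective _ _ (io_comm hθ) hi⟩
  have hd := dense hθ
  have hB : Nontrivial (BB hθ) := hi.nontrivial
  have hs : SeparableSpace (BB hθ) := sep hθ
  obtain ⟨e⟩ := hINT A (BB hθ) (io hθ) hi
    (hAPPR A (BB hθ) Q Z ω q hUP hω hB hZs hZn hZh θ hθ (io hθ) (ka hθ) (io_comm hθ) hd)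
  refine ⟨BB hθ, inferInstance, io hθ, ka hθ, ⟨hn, hd, ?_⟩, ⟨e.symm⟩⟩
  intro D _ f' g' hn' x
  exact (hZn _ _ _ _ _ f' g' hn hn' x).le

end Pool.Agent.N299.DT
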